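import Pool.Agent.helper53.ORT.Spec

/-!
# Row WT of project ort (MP_561ff4_al): transitivity of the commutator subgroup of the orthogonal
group on orthogonal families.
-/

set_option autoImplicit false
set_option linter.unusedVariables false

namespace Pool.Agent.ORT

open Module Pool.Agent.GS

open scoped BigOperators

theorem WT (wa : WA_stmt) (wb : WB_stmt) (ug : URG_stmt) : WT_stmt := by
  intro F V _ _ _ _ _ B hc hB k a a' ha ha' hn hk
  obtain ⟨g, hg, hga⟩ := wa B hc hB k a a' ha ha' hn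
  obtain ⟨e₁, h1a, _, h1n⟩ := ug B hc hB k 0 a' (fun i => i.elim0) ha' (by omega) 1 one_ne_zero
  obtain ⟨c, hcs⟩ := FiniteField.exists_nonsquare hc
  have hc0 : c ≠ 0 := by
    rintro rfl
    exact hcs ⟨0, by simp⟩
  have h1n' : B e₁ e₁ ≠ 0 := by
    rw [h1n]
    exact one_ne_zero
  have hOg : Og B (Fin.cons e₁ a' : Fin (k + 1) → V) := by
    refine ⟨fun i j => ?_, fun i => ?_⟩
    · refine Fin.cases ?_ (fun i => ?_) i
      · refine Fin.cases ?_ (fun j => ?_) j
        · intro h
          exact absurd rfl h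
        · intro _
          rw [Fin.cons_zero, Fin.cons_succ]
          exact h1a j
      · refine Fin.cases ?_ (fun j => ?_) j
        · intro _
          rw [Fin.cons_zero, Fin.cons_succ, hB.symm]
          exact h1a i
        · intro h
          rw [Fin.cons_succ, Fin.cons_succ]
          exact ha'.o i j fun h' => h (by rw [h'])
    · refine Fin.cases ?_ (fun i => ?_) i
      · rw [Fin.cons_zero]
        exact h1n'
      · rw [Fin.cons_succ]
        exact ha'.n i
  obtain ⟨e₂, h2b, _, h2n⟩ := ug B hc hB (k + 1) 0 (Fin.cons e₁ a' : Fin (k + 1) → V)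
    (fun i => i.elim0) hOg (by omega) c hc0
  have h2n' : B e₂ e₂ ≠ 0 := by
    rw [h2n]
    exact hc0
  have h21 : B e₂ e₁ = 0 := h2b 0
  have h2a : ∀ i, B e₂ (a' i) = 0 := fun i => h2b i.succ
  have h12 : B e₁ e₂ = 0 := by
    rw [hB.symm]
    exact h21
  obtain ⟨s, hs, hsg⟩ := wb B hc hB e₁ e₂ h1n' h2n' h12
    (by rw [h1n, h2n, one_mul]; exact hcs) g hg
  have hf1 : ∀ i, rf B e₁ (a' i) = a' i := fun i =>
    rf_of_orth h1n' (by rw [hB.symm]; exact h1a i)
  have hf2 : ∀ i, rf B e₂ (a' i) = a' i := fun i =>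
    rf_of_orth h2n' (by rw [hB.symm]; exact h2a i)
  refine ⟨s * g, hsg, fun i => ?_⟩
  rw [Equiv.Perm.mul_apply, hga i]
  rcases hs with rfl | rfl | rfl | rfl
  · rfl
  · exact hf1 i
  · exact hf2 i
  · rw [Equiv.Perm.mul_apply, hf2 i, hf1 i]

end Pool.Agent.ORT
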